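import Pool.Agent.Helper42.RZ2.Basic

/-! # RZ2-R1: tiling of the plane by the cells of a lattice -/

set_option autoImplicit false

open MeasureTheory Set Metric Filter Topology
open scoped ENNReal

namespace Pool.Agent.Helper41.RZ2

open Pool.Agent.Helper42.RZ Pool.Agent.Helper42.RZ2

/-- the cell with index `k` -/
def cellS (k : ℤ × ℤ) : Set (ℝ × ℝ) := {v | ⌊v.1 + 1 / 2⌋ = k.1 ∧ ⌊v.2 + 1 / 2⌋ = k.2}

theorem measurableSet_cellS (k : ℤ × ℤ) : MeasurableSet (cellS k) := by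
  have h1 : Measurable (fun v : ℝ × ℝ => ⌊v.1 + 1 / 2⌋) :=
    Int.measurable_floor.comp (measurable_fst.add_const _)
  have h2 : Measurable (fun v : ℝ × ℝ => ⌊v.2 + 1 / 2⌋) :=
    Int.measurable_floor.comp (measurable_snd.add_const _)
  exact (h1 (measurableSet_singleton k.1)).inter (h2 (measurableSet_singleton k.2))

theorem add_mem_cellS (k : ℤ × ℤ) (u : ℝ × ℝ) :
    u + ((k.1 : ℝ), (k.2 : ℝ)) ∈ cellS k ↔ u ∈ Sq := by
  simp only [cellS, Set.mem_ofPred_eq, Prod.fst_add, Prod.snd_add, Sq, Set.mem_prod, Set.mem_Ico]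
  rw [Int.floor_eq_iff, Int.floor_eq_iff]
  constructor
  · rintro ⟨⟨h1, h2⟩, h3, h4⟩
    exact ⟨⟨by linarith, by linarith⟩, by linarith, by linarith⟩
  · rintro ⟨⟨h1, h2⟩, h3, h4⟩
    exact ⟨⟨by linarith, by linarith⟩, by linarith, by linarith⟩

theorem cell_sum (g : ℝ × ℝ → ℝ≥0∞) :
    ∑' k : ℤ × ℤ, ∫⁻ u in Sq, g (u + ((k.1 : ℝ), (k.2 : ℝ))) = ∫⁻ v, g v := by
  have h1 : ∀ k : ℤ × ℤ, ∫⁻ u in Sq, g (u + ((k.1 : ℝ), (k.2 : ℝ))) =
      ∫⁻ v in cellS k, g v := by
    intro k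
    rw [← lintegral_indicator measurableSet_Sq, ← lintegral_indicator (measurableSet_cellS k),
      ← lintegral_add_right_eq_self (fun v => (cellS k).indicator g v)
        ((k.1 : ℝ), (k.2 : ℝ))]
    apply lintegral_congr
    intro u
    by_cases hu : u ∈ Sq
    · rw [Set.indicator_of_mem hu, Set.indicator_of_mem ((add_mem_cellS k u).2 hu)]
    · rw [Set.indicator_of_notMem hu,
        Set.indicator_of_notMem (fun h => hu ((add_mem_cellS k u).1 h))]
  have h2 : (⋃ k : ℤ × ℤ, cellS k) = univ := by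
    rw [Set.eq_univ_iff_forall]
    intro v
    rw [Set.mem_iUnion]
    exact ⟨(⌊v.1 + 1 / 2⌋, ⌊v.2 + 1 / 2⌋), rfl, rfl⟩
  have h3 : Pairwise (Function.onFun Disjoint cellS) := by
    intro k l hkl
    rw [Function.onFun, Set.disjoint_left]
    intro v hv hv'
    apply hkl
    exact Prod.ext (hv.1.symm.trans hv'.1) (hv.2.symm.trans hv'.2)
  simp_rw [h1]
  rw [← lintegral_iUnion measurableSet_cellS h3, h2, Measure.restrict_univ]

theorem lin_change {a b : ℂ} (h : dt a b ≠ 0) (x : ℂ) {f : ℂ → ℝ≥0∞} (hf : Measurable f) :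
    ∫⁻ v : ℝ × ℝ, f (x + (v.1 * a + v.2 * b)) =
      ENNReal.ofReal |dt a b|⁻¹ * ∫⁻ z, f z := by
  set M : (ℝ × ℝ) →ₗ[ℝ] (ℝ × ℝ) :=
    Matrix.toLin (Module.Basis.finTwoProd ℝ) (Module.Basis.finTwoProd ℝ)
      !![a.re, b.re; a.im, b.im] with hM
  have hdet : LinearMap.det M = dt a b := by
    rw [hM, LinearMap.det_toLin, Matrix.det_fin_two_of, dt]
    ring
  have hMv : ∀ v : ℝ × ℝ, M v = (a.re * v.1 + b.re * v.2, a.im * v.1 + b.im * v.2) := by
    intro v
    rw [hM, Matrix.toLin_finTwoProd_apply]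
  have hmap := Measure.map_linearMap_addHaar_eq_smul_addHaar
    (volume : Measure (ℝ × ℝ)) (f := M) (by rw [hdet]; exact h)
  set T : ℝ × ℝ → ℂ := fun w => Complex.measurableEquivRealProd.symm w with hT
  have hTm : Measurable T := Complex.measurableEquivRealProd.symm.measurable
  have hg : Measurable (fun w : ℝ × ℝ => f (x + T w)) :=
    hf.comp (measurable_const.add hTm)
  have hMm : Measurable M := (LinearMap.continuous_of_finiteDimensional M).measurable
  have e1 : ∀ v : ℝ × ℝ, f (x + (v.1 * a + v.2 * b)) = f (x + T (M v)) := by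
    intro v
    congr 2
    rw [hMv, hT]
    apply Complex.ext
    · simp [Complex.measurableEquivRealProd]
      ring
    · simp [Complex.measurableEquivRealProd]
      ring
  calc ∫⁻ v : ℝ × ℝ, f (x + (v.1 * a + v.2 * b))
      = ∫⁻ v : ℝ × ℝ, f (x + T (M v)) := lintegral_congr e1
    _ = ∫⁻ w, f (x + T w) ∂(Measure.map M volume) := (lintegral_map hg hMm).symm
    _ = ENNReal.ofReal |dt a b|⁻¹ * ∫⁻ w, f (x + T w) := by
        rw [hmap, lintegral_smul_measure, hdet, abs_inv, smul_eq_mul]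
    _ = ENNReal.ofReal |dt a b|⁻¹ * ∫⁻ z, f (x + z) := by
        congr 1
        have hp := Complex.volume_preserving_equiv_real_prod.symm
        exact hp.lintegral_comp (f := fun z => f (x + z)) (hf.comp (measurable_const.add measurable_id))
    _ = ENNReal.ofReal |dt a b|⁻¹ * ∫⁻ z, f z := by
        rw [lintegral_add_left_eq_self]

theorem tiling {a b : ℂ} (h : dt a b ≠ 0) (x : ℂ) {f : ℂ → ℝ≥0∞} (hf : Measurable f) :
    ∑' k : ℤ × ℤ, ∫⁻ u in Sq, f (x + lv a b k + (u.1 * a + u.2 * b)) =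
      ENNReal.ofReal |dt a b|⁻¹ * ∫⁻ z, f z := by
  rw [← lin_change h x hf, ← cell_sum]
  congr 1
  ext k
  apply lintegral_congr
  intro u
  congr 1
  rw [lv]
  push_cast [Prod.fst_add, Prod.snd_add]
  ring

end Pool.Agent.Helper41.RZ2
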